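import Pool.Agent.L0h18.LZ.Defs

/-!
# LZ, module MINK: an integral vector of bounded height in the cone
-/

set_option autoImplicit false

open Pool.Agent.N165.KM (IntL)
open MeasureTheory

namespace Pool.Agent.L0h10.LZ

open Pool.Agent.L0h18.LZ

variable {ρ : ℕ} (B : Matrix (Fin ρ) (Fin ρ) ℤ)

/-- the form as a bilinear map -/
def bl : (Fin ρ → ℝ) →ₗ[ℝ] (Fin ρ → ℝ) →ₗ[ℝ] ℝ :=
  LinearMap.mk₂ ℝ (bil B)
    (by
      intro x y z
      simp only [bil, Pi.add_apply, mul_add, add_mul, Finset.sum_add_distrib])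
    (by
      intro c x y
      simp only [bil, Pi.smul_apply, smul_eq_mul, Finset.mul_sum]
      exact Finset.sum_congr rfl fun i _ => Finset.sum_congr rfl fun j _ => by ring)
    (by
      intro x y z
      simp only [bil, Pi.add_apply, mul_add, Finset.sum_add_distrib])
    (by
      intro c x y
      simp only [bil, Pi.smul_apply, smul_eq_mul, Finset.mul_sum]
      exact Finset.sum_congr rfl fun i _ => Finset.sum_congr rfl fun j _ => by ring)

lemma bil_eq (x y : Fin ρ → ℝ) : bil B x y = bl B x y := rfl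

variable {B}

lemma bl_comm {h : Fin ρ → ℝ} (hB : Lorentz B h) (x y : Fin ρ → ℝ) : bl B x y = bl B y x := by
  rw [← bil_eq, ← bil_eq]
  unfold bil
  rw [Finset.sum_comm]
  exact Finset.sum_congr rfl fun i _ => Finset.sum_congr rfl fun j _ => by
    rw [hB.symm j i]; ring

/-- the values at integral vectors are integers -/
lemma bl_int {x y : Fin ρ → ℝ} (hx : x ∈ IntL ρ) (hy : y ∈ IntL ρ) : ∃ m : ℤ, bl B x y = m := by
  choose a ha using hx
  choose b hb using hy
  refine ⟨∑ i, ∑ j, B i j * a i * b j, ?_⟩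
  rw [← bil_eq]
  unfold bil
  push_cast
  exact Finset.sum_congr rfl fun i _ => Finset.sum_congr rfl fun j _ => by rw [ha i, hb j]

/-- the convex body attached to `u` -/
def body (B : Matrix (Fin ρ) (Fin ρ) ℤ) (u : Fin ρ → ℝ) (A : ℝ) : Set (Fin ρ → ℝ) :=
  {x | |bl B u x| ≤ A ∧ bl B u x ^ 2 - bl B x x ≤ 1 / 4}

lemma body_symm (u : Fin ρ → ℝ) (A : ℝ) : ∀ x ∈ body B u A, -x ∈ body B u A := by
  rintro x ⟨h1, h2⟩
  refine ⟨?_, ?_⟩
  · rw [map_neg, abs_neg]; exact h1
  · simp only [map_neg, LinearMap.neg_apply, neg_neg, neg_sq]; exact h2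

lemma body_convex {h : Fin ρ → ℝ} (hB : Lorentz B h) (u : Fin ρ → ℝ) (A : ℝ)
    (hQ : ∀ x, 0 ≤ bl B u x ^ 2 - bl B x x) : Convex ℝ (body B u A) := by
  rintro x ⟨hx1, hx2⟩ y ⟨hy1, hy2⟩ a b ha hb hab
  refine ⟨?_, ?_⟩
  · rw [map_add, map_smul, map_smul, smul_eq_mul, smul_eq_mul]
    calc |a * bl B u x + b * bl B u y| ≤ |a * bl B u x| + |b * bl B u y| := abs_add_le _ _
      _ = a * |bl B u x| + b * |bl B u y| := by rw [abs_mul, abs_mul, abs_of_nonneg ha, abs_of_nonneg hb]
      _ ≤ a * A + b * A := add_le_add (mul_le_mul_of_nonneg_left hx1 ha) (mul_le_mul_of_nonneg_left hy1 hb)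
      _ = A := by rw [← add_mul, hab, one_mul]
  · have h1 := hQ (x - y)
    simp only [map_add, map_smul, map_sub, LinearMap.add_apply, LinearMap.smul_apply, LinearMap.sub_apply,
      smul_eq_mul] at h1 ⊢
    have hc : bl B y x = bl B x y := bl_comm hB y x
    rw [hc] at h1 ⊢
    have hb' : b = 1 - a := by linarith
    have h2 := mul_nonneg (mul_nonneg ha hb) h1
    have h3 : a * (bl B u x ^ 2 - bl B x x) ≤ a * (1 / 4) := mul_le_mul_of_nonneg_left hx2 ha
    have h4 : b * (bl B u y ^ 2 - bl B y y) ≤ b * (1 / 4) := mul_le_mul_of_nonneg_left hy2 hb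
    rw [hb'] at h2 h4 ⊢
    nlinarith [h2, h3, h4]

/-- the isometry which takes `k` to `u` -/
noncomputable def refl (B : Matrix (Fin ρ) (Fin ρ) ℤ) (w : Fin ρ → ℝ) : (Fin ρ → ℝ) →ₗ[ℝ] (Fin ρ → ℝ) :=
  (2 / bl B w w) • (LinearMap.toSpanSingleton ℝ (Fin ρ → ℝ) w ∘ₗ bl B w) - LinearMap.id

lemma refl_apply (w x : Fin ρ → ℝ) : refl B w x = (2 / bl B w w * bl B w x) • w - x := by
  simp only [refl, LinearMap.sub_apply, LinearMap.smul_apply, LinearMap.comp_apply,
    LinearMap.toSpanSingleton_apply, LinearMap.id_apply, smul_smul]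

lemma refl_refl (w x : Fin ρ → ℝ) (hw : bl B w w ≠ 0) : refl B w (refl B w x) = x := by
  rw [refl_apply, refl_apply, map_sub, map_smul, smul_eq_mul]
  have : 2 / bl B w w * (2 / bl B w w * bl B w x * bl B w w - bl B w x) = 2 / bl B w w * bl B w x := by
    field_simp
    ring
  rw [this]
  simp

lemma refl_iso {h : Fin ρ → ℝ} (hB : Lorentz B h) (w x y : Fin ρ → ℝ) (hw : bl B w w ≠ 0) :
    bl B (refl B w x) (refl B w y) = bl B x y := by
  rw [refl_apply, refl_apply]
  simp only [map_sub, map_smul, LinearMap.sub_apply, LinearMap.smul_apply, smul_eq_mul]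
  rw [bl_comm hB x w]
  field_simp
  ring

lemma refl_det (w : Fin ρ → ℝ) (hw : bl B w w ≠ 0) : |LinearMap.det (refl B w)| = 1 := by
  have h1 : refl B w ∘ₗ refl B w = LinearMap.id := by
    ext1 x
    exact LinearMap.ext fun t => by
      simp only [LinearMap.comp_apply, LinearMap.id_apply]
      rw [refl_refl w _ hw]
  have h2 := congrArg LinearMap.det h1
  rw [LinearMap.det_comp, LinearMap.det_id] at h2
  have h3 : |LinearMap.det (refl B w)| * |LinearMap.det (refl B w)| = 1 := by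
    rw [← abs_mul, h2, abs_one]
  nlinarith [abs_nonneg (LinearMap.det (refl B w))]

/-- the dilation in the direction of `k` -/
lemma vol_dilate {h : Fin ρ → ℝ} (hB : Lorentz B h) {k : Fin ρ → ℝ} (hk : bl B k k = 1) (n : ℕ) :
    (n : ENNReal) * volume (body B k 1) ≤ volume (body B k n) := by
  set D : (Fin ρ → ℝ) →ₗ[ℝ] (Fin ρ → ℝ) := LinearMap.transvection (((n : ℝ) - 1) • bl B k) k with hD
  have hdet : LinearMap.det D = n := by
    rw [hD, LinearMap.transvection.det, LinearMap.smul_apply, hk, smul_eq_mul]; ring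
  have h1 : D '' body B k 1 ⊆ body B k n := by
    rintro _ ⟨x, ⟨hx1, hx2⟩, rfl⟩
    have hDx : D x = x + (((n : ℝ) - 1) * bl B k x) • k := by
      rw [hD, LinearMap.transvection.apply, LinearMap.smul_apply, smul_eq_mul]
    have hkx : bl B k (D x) = n * bl B k x := by
      rw [hDx, map_add, map_smul, hk, smul_eq_mul]; ring
    refine ⟨?_, ?_⟩
    · rw [hkx, abs_mul, Nat.abs_cast]
      calc (n : ℝ) * |bl B k x| ≤ n * 1 := mul_le_mul_of_nonneg_left hx1 (Nat.cast_nonneg n)
        _ = n := mul_one _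
    · have h2 : bl B (D x) (D x) = bl B x x + 2 * (((n : ℝ) - 1) * bl B k x) * bl B k x +
          (((n : ℝ) - 1) * bl B k x) ^ 2 := by
        rw [hDx]
        simp only [map_add, map_smul, LinearMap.add_apply, LinearMap.smul_apply, smul_eq_mul, hk]
        rw [bl_comm hB x k]
        ring
      rw [hkx, h2]
      nlinarith [hx2]
  calc (n : ENNReal) * volume (body B k 1) = volume (D '' body B k 1) := by
        rw [Measure.addHaar_image_linearMap, hdet, Nat.abs_cast, ENNReal.ofReal_natCast]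
    _ ≤ volume (body B k n) := measure_mono h1

lemma continuous_bl (u : Fin ρ → ℝ) : Continuous fun x => bl B u x :=
  LinearMap.continuous_of_finiteDimensional _

lemma continuous_bl2 : Continuous fun x : Fin ρ → ℝ => bl B x x := by
  have : (fun x : Fin ρ → ℝ => bl B x x) = fun x => ∑ i, ∑ j, (B i j : ℝ) * x i * x j := rfl
  rw [this]
  fun_prop

lemma vol_pos (k : Fin ρ → ℝ) : volume (body B k 1) ≠ 0 := by
  have ho : IsOpen {x : Fin ρ → ℝ | |bl B k x| < 1 ∧ bl B k x ^ 2 - bl B x x < 1 / 4} := by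
    refine (isOpen_lt (continuous_abs.comp (continuous_bl k)) continuous_const).inter
      (isOpen_lt (((continuous_bl k).pow 2).sub continuous_bl2) continuous_const)
  have h0 : (0 : Fin ρ → ℝ) ∈ {x : Fin ρ → ℝ | |bl B k x| < 1 ∧ bl B k x ^ 2 - bl B x x < 1 / 4} := by
    simp
  have h1 := ho.measure_pos (volume : Measure (Fin ρ → ℝ)) ⟨0, h0⟩
  have h2 : {x : Fin ρ → ℝ | |bl B k x| < 1 ∧ bl B k x ^ 2 - bl B x x < 1 / 4} ⊆ body B k 1 :=
    fun x hx => ⟨hx.1.le, hx.2.le⟩
  exact (lt_of_lt_of_le h1 (measure_mono h2)).ne'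

/-- Minkowski's theorem for the lattice of integral vectors -/
lemma exists_int {s : Set (Fin ρ → ℝ)} (h_symm : ∀ x ∈ s, -x ∈ s) (h_conv : Convex ℝ s)
    (hv : (2 : ENNReal) ^ ρ < volume s) : ∃ x ∈ s, x ∈ IntL ρ ∧ x ≠ 0 := by
  classical
  have hfund := ZSpan.isAddFundamentalDomain' (Pi.basisFun ℝ (Fin ρ)) (volume : Measure (Fin ρ → ℝ))
  have hcount : Countable (Submodule.span ℤ (Set.range (Pi.basisFun ℝ (Fin ρ)))).toAddSubgroup :=
    inferInstanceAs (Countable (Submodule.span ℤ (Set.range (Pi.basisFun ℝ (Fin ρ)))))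
  have hvol : volume (ZSpan.fundamentalDomain (Pi.basisFun ℝ (Fin ρ))) *
      2 ^ Module.finrank ℝ (Fin ρ → ℝ) < volume s := by
    rw [ZSpan.fundamentalDomain_pi_basisFun, volume_pi, Measure.pi_pi, Real.volume_Ico, sub_zero,
      ENNReal.ofReal_one, Finset.prod_const_one, one_mul, Module.finrank_fin_fun]
    exact hv
  obtain ⟨x, hx0, hxs⟩ := exists_ne_zero_mem_lattice_of_measure_mul_two_pow_lt_measure hfund h_symm h_conv hvol
  refine ⟨x, hxs, ?_, ?_⟩
  · intro i
    have h1 := x.2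
    have h2 : (x : Fin ρ → ℝ) ∈ Submodule.span ℤ (Set.range (Pi.basisFun ℝ (Fin ρ))) := h1
    rw [Module.Basis.mem_span_iff_repr_mem] at h2
    obtain ⟨m, hm⟩ := h2 i
    exact ⟨m, by simpa using hm.symm⟩
  · intro h0
    exact hx0 (Subtype.ext h0)

theorem mink : Pool.Agent.L0h18.LZ.S_MINK := by
  intro hbas ρ B h hB
  obtain ⟨a1, a2, a3, a4, b1, b2, b3, a5, a6, b4, b5, a7, a8, b6, b7, b8⟩ := hbas ρ B h hB
  have hpos : 0 < bl B h h := hB.pos
  set k : Fin ρ → ℝ := (1 / Real.sqrt (bl B h h)) • h with hk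
  have hsq : Real.sqrt (bl B h h) * Real.sqrt (bl B h h) = bl B h h := Real.mul_self_sqrt hpos.le
  have hsp : 0 < Real.sqrt (bl B h h) := Real.sqrt_pos.2 hpos
  have hkk : bl B k k = 1 := by
    rw [hk]
    simp only [map_smul, LinearMap.smul_apply, smul_eq_mul]
    field_simp
    rw [sq, hsq]
  have hkh : 0 < bl B k h := by
    rw [hk, map_smul, LinearMap.smul_apply, smul_eq_mul]
    positivity
  have hkp : k ∈ pcone B h := ⟨by rw [bil_eq, hkk]; exact one_pos, hkh⟩
  have hk0 : k ≠ 0 := by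
    intro h0
    rw [h0] at hkh
    simp at hkh
  obtain ⟨n, hn⟩ := ENNReal.exists_nat_mul_gt (vol_pos (B := B) k) (b := (2 : ENNReal) ^ ρ) (by finiteness)
  have hn1 : (2 : ENNReal) ^ ρ < volume (body B k n) := lt_of_lt_of_le hn (vol_dilate hB hkk n)
  refine ⟨n + 1, by positivity, ?_⟩
  intro u hu huu
  rw [bil_eq] at huu
  have hQ : ∀ x, 0 ≤ bl B u x ^ 2 - bl B x x := by
    intro x
    by_cases hx : x - bl B u x • u = 0
    · have hx' : x = bl B u x • u := by rwa [sub_eq_zero] at hx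
      have : bl B x x = bl B u x ^ 2 := by
        conv_lhs => rw [hx']
        simp only [map_smul, LinearMap.smul_apply, smul_eq_mul, huu]
        ring
      rw [this]; simp
    · have h1 := a7 u hu huu _ hx
      rw [bil_eq, bil_eq] at h1
      simp only [map_sub, map_smul, LinearMap.sub_apply, LinearMap.smul_apply, smul_eq_mul, huu] at h1
      rw [bl_comm hB x u] at h1
      nlinarith [h1]
  -- the reflection
  have huk : 0 < bl B u k := a1 u hu k ⟨by rw [bil_eq, hkk]; exact zero_le_one, hkh.le⟩ hk0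
  have hww : bl B (u + k) (u + k) = 2 + 2 * bl B u k := by
    simp only [map_add, LinearMap.add_apply, huu, hkk]
    rw [bl_comm hB k u]; ring
  have hw0 : bl B (u + k) (u + k) ≠ 0 := by rw [hww]; positivity
  have hgk : refl B (u + k) k = u := by
    rw [refl_apply]
    have : 2 / bl B (u + k) (u + k) * bl B (u + k) k = 1 := by
      rw [hww, map_add, LinearMap.add_apply, hkk]
      have : (0 : ℝ) < 2 + 2 * bl B u k := by positivity
      field_simp
      ring
    rw [this, one_smul]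
    simp
  have hsub : refl B (u + k) '' body B k n ⊆ body B u n := by
    rintro _ ⟨x, ⟨hx1, hx2⟩, rfl⟩
    have e1 : bl B u (refl B (u + k) x) = bl B k x := by
      conv_lhs => rw [← hgk]
      rw [hgk, ← refl_iso hB (u + k) k x hw0, hgk]
    have e2 := refl_iso hB (u + k) x x hw0
    exact ⟨by rw [e1]; exact hx1, by rw [e1, e2]; exact hx2⟩
  have hvol : volume (body B k n) ≤ volume (body B u n) := by
    calc volume (body B k n) = volume (refl B (u + k) '' body B k n) := by
          rw [Measure.addHaar_image_linearMap, refl_det _ hw0, ENNReal.ofReal_one, one_mul]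
      _ ≤ _ := measure_mono hsub
  obtain ⟨x, ⟨hx1, hx2⟩, hxL, hx0⟩ := exists_int (body_symm (B := B) u n) (body_convex hB u n hQ)
    (lt_of_lt_of_le hn1 hvol)
  obtain ⟨m, hm⟩ := bl_int (B := B) hxL hxL
  have hxx : 0 ≤ bl B x x := by
    by_contra hneg
    push Not at hneg
    have h1 : m < 0 := by
      have : (m : ℝ) < 0 := by rw [← hm]; exact hneg
      exact_mod_cast this
    have h2 : (m : ℝ) ≤ -1 := by exact_mod_cast (by omega : m ≤ -1)
    rw [hm] at hx2
    nlinarith [sq_nonneg (bl B u x)]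
  have hxx' : 0 ≤ bl B (-x) (-x) := by simpa using hxx
  rcases le_total 0 (bl B x h) with h1 | h1
  · exact ⟨x, ⟨hxL, hx0, hxx, h1⟩, by rw [bil_eq]; linarith [le_abs_self (bl B u x)]⟩
  · refine ⟨-x, ⟨neg_mem hxL, neg_ne_zero.2 hx0, hxx', ?_⟩, ?_⟩
    · rw [bil_eq, map_neg, LinearMap.neg_apply]; linarith
    · rw [bil_eq, map_neg]; linarith [neg_abs_le (bl B u x)]

end Pool.Agent.L0h10.LZ
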